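import Pool.Agent.H74.OneP.Stmts

/-!
# Project ONEP, module A1: the genus inequality by linear algebra over `F₂`
-/

namespace Pool.Agent.H74.OneP

open Equiv Equiv.Perm

namespace A1aux

open Module

/-- functions constant on the classes of `s` -/
def Cs {D : Type} (s : Setoid D) : Submodule (ZMod 2) (D → ZMod 2) where
  carrier := {g | s ≤ Setoid.ker g}
  add_mem' := by
    intro f g hf hg a b hab
    have h1 : f a = f b := hf hab
    have h2 : g a = g b := hg hab
    show (f + g) a = (f + g) b
    simp [h1, h2]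
  zero_mem' := by
    intro a b _
    show (0 : D → ZMod 2) a = (0 : D → ZMod 2) b
    rfl
  smul_mem' := by
    intro c f hf a b hab
    have h1 : f a = f b := hf hab
    show (c • f) a = (c • f) b
    simp [h1]

theorem mem_Cs {D : Type} {s : Setoid D} {g : D → ZMod 2} : g ∈ Cs s ↔ s ≤ Setoid.ker g :=
  Iff.rfl

theorem finrank_Cs {D : Type} [Finite D] (s : Setoid D) :
    finrank (ZMod 2) (Cs s) = Nat.card (Quotient s) := by
  classical
  have : Fintype D := Fintype.ofFinite D
  have hq : Finite (Quotient s) := inferInstance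
  have : Fintype (Quotient s) := Fintype.ofFinite _
  have hr : LinearMap.range (LinearMap.funLeft (ZMod 2) (ZMod 2) (Quotient.mk s)) = Cs s := by
    ext g
    rw [LinearMap.mem_range, mem_Cs]
    constructor
    · rintro ⟨f, rfl⟩ a b hab
      show f (Quotient.mk s a) = f (Quotient.mk s b)
      rw [Quotient.sound hab]
    · intro h
      exact ⟨fun q => Quotient.lift g (fun a b hab => h hab) q, by ext d; rfl⟩
  rw [← hr, LinearMap.finrank_range_of_inj
    (LinearMap.funLeft_injective_of_surjective _ _ _ Quotient.mk_surjective),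
    finrank_fintype_fun_eq_card, Nat.card_eq_fintype_card]

theorem Cs_inf {D : Type} (s t : Setoid D) : Cs s ⊓ Cs t = Cs (s ⊔ t) := by
  ext g
  rw [Submodule.mem_inf, mem_Cs, mem_Cs, mem_Cs, sup_le_iff]

theorem mem_Cs_same {D : Type} [Finite D] {p : Perm D} {g : D → ZMod 2} :
    g ∈ Cs (SameCycle.setoid p) ↔ ∀ d, g (p d) = g d := by
  rw [mem_Cs]
  constructor
  · intro h d
    have : (SameCycle.setoid p) (p d) d := sameCycle_apply_left.2 (SameCycle.refl p d)
    exact h this
  · intro h a b hab
    obtain ⟨i, hi⟩ := (show p.SameCycle a b from hab).exists_nat_pow_eq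
    show g a = g b
    rw [← hi]
    clear hi hab
    induction i with
    | zero => rfl
    | succ n ih => rw [pow_succ', Perm.mul_apply, h, ← ih]

/-- the orthogonal space -/
noncomputable def Orth {D : Type} [Fintype D] (U : Submodule (ZMod 2) (D → ZMod 2)) :
    Submodule (ZMod 2) (D → ZMod 2) := by
  classical
  exact U.dualAnnihilator.map ((dotProductEquiv (ZMod 2) D).symm : _ →ₗ[ZMod 2] _)

theorem finrank_Orth {D : Type} [Fintype D] (U : Submodule (ZMod 2) (D → ZMod 2)) :
    finrank (ZMod 2) U + finrank (ZMod 2) (Orth U) = Fintype.card D := by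
  classical
  unfold Orth
  rw [LinearEquiv.finrank_map_eq, Subspace.finrank_add_finrank_dualAnnihilator_eq,
    finrank_fintype_fun_eq_card]

theorem mem_Orth {D : Type} [Fintype D] {U : Submodule (ZMod 2) (D → ZMod 2)} {h : D → ZMod 2} :
    h ∈ Orth U ↔ ∀ g ∈ U, ∑ d, g d * h d = 0 := by
  classical
  unfold Orth
  rw [Submodule.mem_map]
  constructor
  · rintro ⟨φ, hφ, rfl⟩ g hg
    have h1 := (Submodule.mem_dualAnnihilator φ).1 hφ g hg
    have h2 : φ g = ∑ d, ((dotProductEquiv (ZMod 2) D).symm φ) d * g d := by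
      conv_lhs => rw [← (dotProductEquiv (ZMod 2) D).apply_symm_apply φ]
      rfl
    rw [h2] at h1
    rw [← h1]
    exact Finset.sum_congr rfl fun d _ => mul_comm _ _
  · intro hh
    refine ⟨dotProductEquiv (ZMod 2) D h, (Submodule.mem_dualAnnihilator _).2 fun g hg => ?_, ?_⟩
    · show ∑ d, h d * g d = 0
      rw [← hh g hg]
      exact Finset.sum_congr rfl fun d _ => mul_comm _ _
    · exact (dotProductEquiv (ZMod 2) D).symm_apply_apply h

/-- the map `g ↦ g + g ∘ x` -/
def TT {D : Type} (x : Perm D) : (D → ZMod 2) →ₗ[ZMod 2] (D → ZMod 2) where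
  toFun g := fun d => g d + g (x d)
  map_add' f g := by ext d; simp only [Pi.add_apply]; ring
  map_smul' c f := by ext d; simp only [Pi.smul_apply, RingHom.id_apply, smul_add]

theorem add_self_zmod2 (a : ZMod 2) : a + a = 0 := by
  revert a; decide

theorem eq_of_add_eq_zero {a b : ZMod 2} (h : a + b = 0) : b = a := by
  revert a b; decide

end A1aux

open A1aux Module in
theorem a1 : HypStmt := by
  intro D _ x y
  classical
  let Cx := Cs (SameCycle.setoid x)
  let Cy := Cs (SameCycle.setoid y)
  let Cxy := Cs (SameCycle.setoid (x * y))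
  let T := (TT x).domRestrict Cxy
  -- kernel
  have hker : finrank (ZMod 2) (LinearMap.ker T) = comps x y := by
    have h1 : (LinearMap.ker T).map Cxy.subtype = Cx ⊓ Cy := by
      ext g
      rw [Submodule.mem_map, Submodule.mem_inf]
      constructor
      · rintro ⟨⟨f, hf⟩, hf', rfl⟩
        have h2 : ∀ d, f d + f (x d) = 0 := fun d => congrFun (LinearMap.mem_ker.1 hf') d
        have h3 : ∀ d, f (x d) = f d := fun d => eq_of_add_eq_zero (h2 d)
        have h4 : ∀ d, f (x (y d)) = f d := mem_Cs_same.1 hf
        exact ⟨mem_Cs_same.2 h3, mem_Cs_same.2 fun d => by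
          show f (y d) = f d
          rw [← h4 d, h3]⟩
      · rintro ⟨hgx, hgy⟩
        have h3 : ∀ d, g (x d) = g d := mem_Cs_same.1 hgx
        have h4 : ∀ d, g (y d) = g d := mem_Cs_same.1 hgy
        refine ⟨⟨g, mem_Cs_same.2 fun d => ?_⟩, ?_, rfl⟩
        · rw [Perm.mul_apply, h3, h4]
        · rw [LinearMap.mem_ker]
          ext d
          show g d + g (x d) = 0
          rw [h3, add_self_zmod2]
    have h2 : finrank (ZMod 2) ((LinearMap.ker T).map Cxy.subtype) =
        finrank (ZMod 2) (LinearMap.ker T) :=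
      (Submodule.equivMapOfInjective _ Cxy.injective_subtype _).finrank_eq.symm
    rw [← h2, h1, Cs_inf, finrank_Cs]
    rfl
  have hrk : finrank (ZMod 2) (LinearMap.range T) + comps x y = orb (x * y) := by
    have h := LinearMap.finrank_range_add_finrank_ker T
    rw [hker] at h
    rw [h]
    exact finrank_Cs _
  -- the target space
  let B := Orth (Cx ⊔ Cy)
  have hB : ∀ h : D → ZMod 2, h ∈ B ↔ Bal x h ∧ Bal y h := by
    intro h
    rw [mem_Orth]
    constructor
    · intro hh
      exact ⟨fun g hg => hh g (Submodule.mem_sup_left (mem_Cs_same.2 hg)),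
        fun g hg => hh g (Submodule.mem_sup_right (mem_Cs_same.2 hg))⟩
    · rintro ⟨h1, h2⟩ g hg
      obtain ⟨a, ha, b, hb, rfl⟩ := Submodule.mem_sup.1 hg
      have e1 := h1 a (mem_Cs_same.1 ha)
      have e2 := h2 b (mem_Cs_same.1 hb)
      simp only [Pi.add_apply, add_mul, Finset.sum_add_distrib, e1, e2, add_zero]
  have hle : LinearMap.range T ≤ B := by
    rintro _ ⟨⟨g, hg⟩, rfl⟩
    have hg' : ∀ d, g (x (y d)) = g d := mem_Cs_same.1 hg
    rw [hB]
    constructor
    · intro f hf
      show ∑ d, f d * (g d + g (x d)) = 0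
      simp only [mul_add, Finset.sum_add_distrib]
      have : ∑ d, f d * g (x d) = ∑ d, f d * g d := by
        rw [← Equiv.sum_comp x (fun d => f d * g d)]
        exact Finset.sum_congr rfl fun d _ => by rw [hf]
      rw [this, add_self_zmod2]
    · intro f hf
      show ∑ d, f d * (g d + g (x d)) = 0
      simp only [mul_add, Finset.sum_add_distrib]
      have : ∑ d, f d * g (x d) = ∑ d, f d * g d := by
        rw [← Equiv.sum_comp y (fun d => f d * g (x d))]
        exact Finset.sum_congr rfl fun d _ => by rw [hf, hg']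
      rw [this, add_self_zmod2]
  have hdimB : finrank (ZMod 2) B + orb x + orb y = Fintype.card D + comps x y := by
    have h1 := finrank_Orth (Cx ⊔ Cy)
    have h2 := Submodule.finrank_sup_add_finrank_inf_eq Cx Cy
    rw [Cs_inf, finrank_Cs, finrank_Cs, finrank_Cs] at h2
    have h3 : Nat.card (Quotient (SameCycle.setoid x ⊔ SameCycle.setoid y)) = comps x y := rfl
    have h4 : Nat.card (Quotient (SameCycle.setoid x)) = orb x := rfl
    have h5 : Nat.card (Quotient (SameCycle.setoid y)) = orb y := rfl
    rw [h3, h4, h5] at h2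
    show finrank (ZMod 2) (Orth (Cx ⊔ Cy)) + orb x + orb y = Fintype.card D + comps x y
    omega
  have hmono := Submodule.finrank_mono hle
  refine ⟨by omega, ?_⟩
  constructor
  · intro heq h hx hy
    have hE : LinearMap.range T = B := Submodule.eq_of_le_of_finrank_eq hle (by omega)
    have hm : h ∈ LinearMap.range T := hE ▸ (hB h).2 ⟨hx, hy⟩
    obtain ⟨⟨g, hg⟩, rfl⟩ := hm
    exact ⟨g, mem_Cs_same.1 hg, fun d => rfl⟩
  · intro hh
    have hE : LinearMap.range T = B := by
      refine le_antisymm hle fun h hm => ?_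
      obtain ⟨hx, hy⟩ := (hB h).1 hm
      obtain ⟨g, hg, hd⟩ := hh h hx hy
      exact ⟨⟨g, mem_Cs_same.2 hg⟩, funext fun d => (hd d).symm⟩
    rw [hE] at hrk
    omega

end Pool.Agent.H74.OneP
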