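import Pool.Agent.H74.OneP.Stmts

/-!
# Project ONEP, module A2: closed curves in a drawing
-/

namespace Pool.Agent.H74.OneP

open Equiv Equiv.Perm Drawing

namespace A2aux

/-- number of cycles from a surjection whose fibres are the cycles -/
theorem orb_eq {D P : Type} (p : Perm D) (f : D → P) (hf : Function.Surjective f)
    (h : ∀ d e, f d = f e ↔ p.SameCycle d e) : orb p = Nat.card P := by
  unfold orb
  refine Nat.card_congr (Equiv.ofBijective
    (Quotient.lift f (fun a b hab => (h a b).2 hab)) ⟨?_, ?_⟩)
  · intro a b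
    induction a using Quotient.inductionOn with
    | h a =>
      induction b using Quotient.inductionOn with
      | h b => exact fun hab => Quotient.sound ((h a b).1 hab)
  · intro q
    obtain ⟨d, rfl⟩ := hf q
    exact ⟨Quotient.mk _ d, rfl⟩

theorem orb_inv {D : Type} (p : Perm D) : orb p⁻¹ = orb p := by
  unfold orb
  have : SameCycle.setoid p⁻¹ = SameCycle.setoid p := by
    ext a b
    exact sameCycle_inv
  rw [this]

/-- number of cycles of a fixed point free involution -/
theorem orb_invol {D : Type} [Fintype D] (p : Perm D) (h2 : ∀ d, p (p d) = d)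
    (hne : ∀ d, p d ≠ d) : 2 * orb p = Fintype.card D := by
  classical
  have hsame : ∀ d e, p.SameCycle d e ↔ e = d ∨ e = p d := by
    intro d e
    constructor
    · intro h
      obtain ⟨i, hi⟩ := h.exists_nat_pow_eq
      rw [← hi]
      clear hi h
      induction i with
      | zero => exact Or.inl rfl
      | succ n ih =>
        rw [pow_succ', Perm.mul_apply]
        rcases ih with ih | ih
        · rw [ih]; exact Or.inr rfl
        · rw [ih, h2]; exact Or.inl rfl
    · rintro (rfl | rfl)
      · exact SameCycle.refl _ _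
      · exact sameCycle_apply_right.2 (SameCycle.refl _ _)
  let q : D → Quotient (SameCycle.setoid p) := Quotient.mk _
  have hfib : ∀ c ∈ (Finset.univ : Finset (Quotient (SameCycle.setoid p))),
      (Finset.univ.filter fun d => q d = c).card = 2 := by
    intro c _
    induction c using Quotient.inductionOn with
    | h e =>
      have : (Finset.univ.filter fun d => q d = Quotient.mk _ e) = {e, p e} := by
        ext d
        simp only [Finset.mem_filter, Finset.mem_univ, true_and, Finset.mem_insert,
          Finset.mem_singleton]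
        rw [← hsame e d]
        constructor
        · intro h
          exact (show p.SameCycle d e from Quotient.exact h).symm
        · intro h
          exact Quotient.sound (show p.SameCycle d e from h.symm)
      rw [this, Finset.card_pair (hne e).symm]
  have h := Finset.card_eq_sum_card_fiberwise (f := q) (s := Finset.univ) (t := Finset.univ)
    (fun d _ => Finset.mem_univ _)
  rw [Finset.sum_congr rfl hfib] at h
  simp only [Finset.sum_const, smul_eq_mul, Finset.card_univ] at h
  unfold orb
  rw [Nat.card_eq_fintype_card, h, mul_comm]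

theorem nonempty_D (M : Drawing) : Nonempty M.D := by
  by_contra hD
  rw [not_nonempty_iff] at hD
  have h1 : IsEmpty (M.V ⊕ M.X) := ⟨fun p => by
    obtain ⟨d, -⟩ := M.org_surj p
    exact hD.false d⟩
  have h2 : IsEmpty M.F := ⟨fun p => by
    obtain ⟨d, -⟩ := M.fac_surj p
    exact hD.false d⟩
  have h3 : IsEmpty M.V := ⟨fun v => h1.false (Sum.inl v)⟩
  have h4 : IsEmpty M.X := ⟨fun v => h1.false (Sum.inr v)⟩
  have := M.euler
  simp at this

/-- the planarization is connected -/
theorem comps_one (M : Drawing) (x y : Perm M.D)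
    (h : ∀ s : Set M.D, (∀ d ∈ s, x d ∈ s ∧ y d ∈ s) →
      ∀ d ∈ s, M.rot d ∈ s ∧ M.rev d ∈ s) : comps x y = 1 := by
  unfold comps
  obtain ⟨d₀⟩ := nonempty_D M
  rw [Nat.card_eq_one_iff_unique]
  refine ⟨⟨fun a b => ?_⟩, ⟨Quotient.mk _ d₀⟩⟩
  let S := SameCycle.setoid x ⊔ SameCycle.setoid y
  let s : Set M.D := {d | S d₀ d}
  have hs : ∀ d ∈ s, x d ∈ s ∧ y d ∈ s := by
    intro d hd
    refine ⟨S.trans hd ?_, S.trans hd ?_⟩
    · exact (le_sup_left : SameCycle.setoid x ≤ S)
        (show x.SameCycle d (x d) from sameCycle_apply_right.2 (SameCycle.refl _ _))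
    · exact (le_sup_right : SameCycle.setoid y ≤ S)
        (show y.SameCycle d (y d) from sameCycle_apply_right.2 (SameCycle.refl _ _))
  have hu : s = Set.univ := M.conn s ⟨d₀, S.refl d₀⟩ (h s hs)
  have key : ∀ d, S d₀ d := fun d => by
    have : d ∈ s := hu ▸ Set.mem_univ d
    exact this
  induction a using Quotient.inductionOn with
  | h a =>
    induction b using Quotient.inductionOn with
    | h b => exact Quotient.sound (S.trans (S.symm (key a)) (key b))

/-- a set stable under a permutation of a finite type is stable under its inverse -/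
theorem inv_mem {D : Type} [Finite D] (p : Perm D) (s : Set D) (h : ∀ d ∈ s, p d ∈ s) :
    ∀ d ∈ s, p⁻¹ d ∈ s := by
  intro d hd
  have hsc : p.SameCycle d (p⁻¹ d) := ⟨-1, by simp⟩
  obtain ⟨i, hi⟩ := hsc.exists_nat_pow_eq
  rw [← hi]
  clear hi hsc
  induction i with
  | zero => exact hd
  | succ n ih =>
    rw [pow_succ', Perm.mul_apply]
    exact h _ ih

end A2aux

open A2aux in
theorem a2 (hA : HypStmt) : CurveStmt := by
  intro M
  have hrot : orb M.rot = Nat.card M.V + Nat.card M.X := by
    rw [orb_eq M.rot M.org M.org_surj M.org_iff, Nat.card_sum]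
  have hnxt : orb (M.rot⁻¹ * M.rev) = Nat.card M.F :=
    orb_eq _ M.fac M.fac_surj M.fac_iff
  have hrev : 2 * orb M.rev = Fintype.card M.D := orb_invol M.rev M.rev_rev M.rev_ne
  have hE := M.euler
  rw [Nat.card_eq_fintype_card (α := M.D)] at hE
  constructor
  · intro h hb1 hb2
    have hc : comps M.rot⁻¹ M.rev = 1 := by
      refine comps_one M _ _ fun s hs d hd => ⟨?_, (hs d hd).2⟩
      have := inv_mem M.rot⁻¹ s (fun d hd => (hs d hd).1) d hd
      simpa using this
    obtain ⟨-, heq⟩ := hA M.D M.rot⁻¹ M.rev
    rw [orb_inv, hc, hnxt, hrot] at heq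
    obtain ⟨g, hg1, hg2⟩ := heq.1 (by omega) h
      (fun g hg => hb1 g fun d => by
        have := hg (M.rot d)
        have h1 : M.rot⁻¹ (M.rot d) = d := by simp
        rw [h1] at this
        exact this.symm) hb2
    exact ⟨g, hg1, hg2⟩
  · intro h hb1 hb2
    have hm : M.rot * M.nxt = M.rev := by
      ext d
      simp
    have hc : comps M.rot M.nxt = 1 := by
      refine comps_one M _ _ fun s hs d hd => ⟨(hs d hd).1, ?_⟩
      have := (hs _ (hs d hd).2).1
      rwa [rot_nxt] at this
    obtain ⟨-, heq⟩ := hA M.D M.rot M.nxt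
    rw [hm, hc, hrot] at heq
    have hnxt' : orb M.nxt = Nat.card M.F := hnxt
    rw [hnxt'] at heq
    obtain ⟨g, hg1, hg2⟩ := heq.1 (by omega) h hb1 hb2
    refine ⟨g, fun d => ?_, hg2⟩
    have := hg1 d
    rwa [rot_nxt] at this

end Pool.Agent.H74.OneP
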