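import Pool.Agent.H74.OneP.UStmts

/-!
# Project ONEP, module U0: maximal drawings are 2-connected
-/

namespace Pool.Agent.H74.OneP

open Equiv Equiv.Perm Drawing

namespace U0aux

variable {M : Drawing}

/-- connectivity by closed sets -/
theorem connected_of {W : Type} (H : SimpleGraph W) [Nonempty W]
    (h : ∀ A : Set W, A.Nonempty → (∀ x ∈ A, ∀ y, H.Adj x y → y ∈ A) → A = Set.univ) :
    H.Connected := by
  refine ⟨fun a b => ?_⟩
  have hu := h {w | H.Reachable a w} ⟨a, SimpleGraph.Reachable.refl a⟩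
    (fun x hx y hxy => SimpleGraph.Reachable.trans hx hxy.reachable)
  have : b ∈ {w | H.Reachable a w} := hu ▸ Set.mem_univ b
  exact this

theorem face' (hS : M.IsSimple) (hM : M.IsMaximal) {d e : M.D} (hd : ¬ M.cr d) (he : ¬ M.cr e)
    (hf : M.fac d = M.fac e) : M.org d = M.org e ∨ adj (M.org d) (M.org e) := by
  by_cases hn : M.org d = M.org e
  · exact Or.inl hn
  · right
    obtain ⟨u, hu⟩ := (not_cr_iff _).1 hd
    obtain ⟨v, hv⟩ := (not_cr_iff _).1 he
    have := hM.face d e u v hu hv hf (by rintro rfl; exact hn (hu.trans hv.symm))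
    rw [graph_adj_iff hS] at this
    rw [hu, hv]; exact this

/-- consecutive ends of a crossing are adjacent -/
theorem cross_adj (hS : M.IsSimple) (hM : M.IsMaximal) {c : M.D} (hc : M.cr c) :
    adj (M.org (M.rev c)) (M.org (M.rev (M.rot c))) := by
  have h1 : ¬ M.cr (M.nxt c) := not_cr_nxt hc
  have h2 : ¬ M.cr (M.rev (M.rot c)) := not_cr_rev (by simpa using hc)
  have h3 : M.fac (M.nxt c) = M.fac (M.rev (M.rot c)) := by rw [fac_nxt, fac_rev_rot]
  rcases face' hS hM h1 h2 h3 with h | h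
  · rw [org_nxt] at h
    exact absurd h (hS.cross_ends c hc)
  · rwa [org_nxt] at h

/-- membership of a point in a set of vertices -/
def mem (A : Set M.V) (p : M.V ⊕ M.X) : Prop := ∃ a ∈ A, p = Sum.inl a

theorem conn_graph (hS : M.IsSimple) (hM : M.IsMaximal) (A : Set M.V) (hA : A.Nonempty)
    (hcl : ∀ x ∈ A, ∀ y, M.graph.Adj x y → y ∈ A) : A = Set.univ := by
  have hcl' : ∀ p q : M.V ⊕ M.X, mem A p → adj p q → mem A q := by
    rintro p q ⟨a, ha, rfl⟩ hpq
    obtain ⟨d, hd, hd1, hd2⟩ := hpq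
    obtain ⟨v, hv⟩ := (not_cr_iff _).1 (not_cr_far hd)
    rw [hv] at hd2
    subst hd2
    exact ⟨v, hcl a ha v ((graph_adj_iff hS).2 ⟨d, hd, hd1, hv⟩), rfl⟩
  let s : Set M.D := {d | (¬ M.cr d ∧ mem A (M.org d)) ∨ (M.cr d ∧ mem A (M.org (M.rev d)))}
  have hs : s = Set.univ := by
    refine M.conn s ?_ ?_
    · obtain ⟨a, ha⟩ := hA
      obtain ⟨d, hd⟩ := M.org_surj (Sum.inl a)
      exact ⟨d, Or.inl ⟨(not_cr_iff _).2 ⟨a, hd⟩, a, ha, hd⟩⟩
    · rintro d (⟨hd, hd'⟩ | ⟨hd, hd'⟩)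
      · refine ⟨Or.inl ⟨by simpa using hd, by simpa using hd'⟩, ?_⟩
        by_cases hr : M.cr (M.rev d)
        · exact Or.inr ⟨hr, by simpa using hd'⟩
        · refine Or.inl ⟨hr, hcl' _ _ hd' ⟨d, hd, rfl, ?_⟩⟩
          rw [far_of_not hr]
      · refine ⟨Or.inr ⟨by simpa using hd, hcl' _ _ hd' (cross_adj hS hM hd)⟩, ?_⟩
        exact Or.inl ⟨not_cr_rev hd, hd'⟩
  ext v
  refine ⟨fun _ => trivial, fun _ => ?_⟩
  obtain ⟨d, hd⟩ := M.org_surj (Sum.inl v)
  have hds : d ∈ s := hs ▸ Set.mem_univ d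
  rcases hds with ⟨-, a, ha, ha'⟩ | ⟨⟨x, hx⟩, -⟩
  · rw [hd] at ha'
    cases ha'
    exact ha
  · rw [hd] at hx; cases hx

/-- rotating around `v`, the neighbours stay in the same component of `G - v` -/
theorem rot_step (hS : M.IsSimple) (hM : M.IsMaximal) (v : M.V) (A : Set M.V)
    (hcl : ∀ x ∈ A, ∀ y, y ≠ v → M.graph.Adj x y → y ∈ A) (d : M.D)
    (hd : M.org d = Sum.inl v) (hm : mem A (M.org (M.far d))) :
    mem A (M.org (M.far (M.rot d))) := by
  have hcl' : ∀ p q : M.V ⊕ M.X, mem A p → (p = q ∨ adj p q) → q ≠ Sum.inl v → mem A q := by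
    rintro p q ⟨a, ha, rfl⟩ hpq hqv
    rcases hpq with rfl | hpq
    · exact ⟨a, ha, rfl⟩
    obtain ⟨d, hd, hd1, hd2⟩ := hpq
    obtain ⟨w, hw⟩ := (not_cr_iff _).1 (not_cr_far hd)
    rw [hw] at hd2
    subst hd2
    exact ⟨w, hcl a ha w (fun h => hqv (by rw [h])) ((graph_adj_iff hS).2 ⟨d, hd, hd1, hw⟩), rfl⟩
  have hdr : ¬ M.cr d := (not_cr_iff _).2 ⟨v, hd⟩
  -- the vertex after `d` on its face
  obtain ⟨t₁, ht₁, hf₁, hv₁, hj₁⟩ : ∃ t₁, ¬ M.cr t₁ ∧ M.fac t₁ = M.fac d ∧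
      M.org t₁ ≠ Sum.inl v ∧ (M.org (M.far d) = M.org t₁ ∨ adj (M.org (M.far d)) (M.org t₁)) := by
    by_cases hr : M.cr (M.rev d)
    · refine ⟨M.nxt (M.nxt d), ?_, by simp, ?_, Or.inr ?_⟩
      · apply not_cr_nxt
        rw [nxt_apply]; exact (cr_rotinv _).2 hr
      · have hc := hS.cross_ends (M.rot⁻¹ (M.rev d)) ((cr_rotinv _).2 hr)
        rw [org_nxt, nxt_apply]
        simpa [hd] using hc
      · have hc := cross_adj hS hM (c := M.rot⁻¹ (M.rot⁻¹ (M.rev d)))
          ((cr_rotinv _).2 ((cr_rotinv _).2 hr))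
        have h4 : M.rot⁻¹ (M.rot⁻¹ (M.rev d)) = M.rot (M.rot (M.rev d)) := by
          have := cr_four hr
          rw [Equiv.Perm.inv_eq_iff_eq, Equiv.Perm.inv_eq_iff_eq]
          exact this.symm
        rw [far_of_cr hr, org_nxt, nxt_apply]
        rw [h4] at hc
        convert hc using 3
        rw [← h4]; simp
    · refine ⟨M.nxt d, ?_, by simp, ?_, Or.inl ?_⟩
      · rw [nxt_apply]; exact fun h => hr ((cr_rotinv _).1 h)
      · rw [org_nxt, ← far_of_not hr]
        exact hS.no_loop d v hd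
      · rw [org_nxt, far_of_not hr]
  obtain ⟨t₂, ht₂, hf₂, hv₂, hj₂⟩ : ∃ t₂, ¬ M.cr t₂ ∧ M.fac t₂ = M.fac d ∧
      M.org t₂ ≠ Sum.inl v ∧
      (M.org t₂ = M.org (M.far (M.rot d)) ∨ adj (M.org t₂) (M.org (M.far (M.rot d)))) := by
    by_cases hr : M.cr (M.rev (M.rot d))
    · refine ⟨M.rev (M.rot (M.rev (M.rot d))), ?_, by simp, ?_, Or.inr ?_⟩
      · exact not_cr_rev (by simpa using hr)
      · have hc := hS.cross_ends (M.rev (M.rot d)) hr
        intro h
        rw [h] at hc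
        simp [hd] at hc
      · have hc := cross_adj hS hM (c := M.rot (M.rev (M.rot d))) (by simpa using hr)
        rw [far_of_cr hr]
        exact hc
    · refine ⟨M.rev (M.rot d), hr, by simp, ?_, Or.inl ?_⟩
      · rw [← far_of_not hr]
        exact hS.no_loop (M.rot d) v (by simpa using hd)
      · rw [far_of_not hr]
  have h1 := hcl' _ _ hm hj₁ hv₁
  have h2 := hcl' _ _ h1 (face' hS hM ht₁ ht₂ (hf₁.trans hf₂.symm)) hv₂
  exact hcl' _ _ h2 hj₂ (hS.no_loop (M.rot d) v (by simpa using hd))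

theorem conn_minus (hS : M.IsSimple) (hM : M.IsMaximal) (v : M.V) (A : Set M.V)
    (hA : A.Nonempty) (hv : v ∉ A)
    (hcl : ∀ x ∈ A, ∀ y, y ≠ v → M.graph.Adj x y → y ∈ A) : ∀ y, y ≠ v → y ∈ A := by
  by_cases hN : ∃ x ∈ A, M.graph.Adj x v
  · -- all neighbours of `v` are in `A`
    obtain ⟨x, hx, hxv⟩ := hN
    obtain ⟨d₀, -, hd₀, hd₀'⟩ := (graph_adj_iff hS).1 hxv.symm
    have hall : ∀ d, M.org d = Sum.inl v → mem A (M.org (M.far d)) := by
      intro d hd
      obtain ⟨i, hi⟩ := ((M.org_iff d₀ d).1 (hd₀.trans hd.symm)).exists_nat_pow_eq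
      have key : ∀ n : ℕ, M.org ((M.rot ^ n) d₀) = Sum.inl v ∧
          mem A (M.org (M.far ((M.rot ^ n) d₀))) := by
        intro n
        induction n with
        | zero => exact ⟨hd₀, x, hx, hd₀'⟩
        | succ n ih =>
          rw [pow_succ', Equiv.Perm.mul_apply]
          exact ⟨(org_rot _).trans ih.1, rot_step hS hM v A hcl _ ih.1 ih.2⟩
      rw [← hi]
      exact (key i).2
    intro y hy
    by_contra hyA
    let B : Set M.V := {w | w ≠ v ∧ w ∉ A}
    have hB := conn_graph hS hM B ⟨y, hy, hyA⟩ (by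
      rintro z ⟨hz, hzA⟩ w hzw
      refine ⟨?_, fun hw => hzA (hcl w hw z hz hzw.symm)⟩
      rintro rfl
      obtain ⟨d, -, hd, hd'⟩ := (graph_adj_iff hS).1 hzw.symm
      obtain ⟨a, ha, ha'⟩ := hall d hd
      rw [hd'] at ha'
      cases ha'
      exact hzA ha)
    have : v ∈ B := hB ▸ Set.mem_univ v
    exact this.1 rfl
  · have hU := conn_graph hS hM A hA (by
      intro x hx y hxy
      refine hcl x hx y ?_ hxy
      rintro rfl
      exact hN ⟨x, hx, hxy⟩)
    exact absurd (hU ▸ Set.mem_univ v) hv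

end U0aux

open U0aux in
theorem u0 : TwoConnStmt := by
  intro M hS hM h2
  refine ⟨h2, fun S hScard => ?_⟩
  classical
  have hne : Nonempty {v : M.V | v ∉ S} := by
    by_contra hn
    rw [not_nonempty_iff] at hn
    have hU : (Finset.univ : Finset M.V) ⊆ S := by
      intro v _
      by_contra hv
      exact hn.false ⟨v, hv⟩
    have := Finset.card_le_card hU
    rw [Finset.card_univ, ← Nat.card_eq_fintype_card] at this
    omega
  apply connected_of
  intro A hA hcl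
  rcases Nat.lt_succ_iff_lt_or_eq.1 hScard with h0 | h1
  · have hS0 : S = ∅ := by
      rw [← Finset.card_eq_zero]; omega
    have hU := conn_graph hS hM (Subtype.val '' A) (hA.image _) (by
      rintro _ ⟨x, hx, rfl⟩ y hxy
      exact ⟨⟨y, by simp [hS0]⟩, hcl x hx _ hxy, rfl⟩)
    ext w
    refine ⟨fun _ => trivial, fun _ => ?_⟩
    obtain ⟨w', hw', he⟩ : w.1 ∈ Subtype.val '' A := hU ▸ Set.mem_univ _
    rwa [← Subtype.ext he]
  · obtain ⟨v, rfl⟩ := Finset.card_eq_one.1 h1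
    have hU := conn_minus hS hM v (Subtype.val '' A) (hA.image _)
      (by
        rintro ⟨x, -, hx⟩
        exact x.2 (by simp [hx]))
      (by
        rintro _ ⟨x, hx, rfl⟩ y hy hxy
        exact ⟨⟨y, by simpa using hy⟩, hcl x hx _ hxy, rfl⟩)
    ext w
    refine ⟨fun _ => trivial, fun _ => ?_⟩
    obtain ⟨w', hw', he⟩ := hU w.1 (fun h => w.2 (by simp [h]))
    rwa [← Subtype.ext he]

end Pool.Agent.H74.OneP
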