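import Pool.Agent.H74.OneP.UStmts
import Pool.Agent.H92.OneP.A2

/-!
# Project ONEP, module U1: the remaining properties follow from the count
-/

namespace Pool.Agent.H74.OneP

open Equiv Equiv.Perm Drawing

namespace U1aux

/-- the surjection from cycles -/
def toPt {D P : Type} (p : Perm D) (f : D → P) (h : ∀ d, f (p d) = f d) :
    Quotient (SameCycle.setoid p) → P :=
  Quotient.lift f (fun a b hab => by
    obtain ⟨i, rfl⟩ := (show p.SameCycle a b from hab)
    have key : ∀ n : ℕ, ∀ d, f ((p ^ n) d) = f d := by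
      intro n
      induction n with
      | zero => intro d; rfl
      | succ n ih => intro d; rw [pow_succ', Perm.mul_apply, h, ih]
    cases i with
    | ofNat n => exact (key n a).symm
    | negSucc n =>
      have := key (n + 1) ((p ^ (Int.negSucc n)) a)
      rw [← this, zpow_negSucc, ← Perm.mul_apply, mul_inv_cancel]
      rfl)

theorem toPt_surj {D P : Type} (p : Perm D) (f : D → P) (h : ∀ d, f (p d) = f d)
    (hf : Function.Surjective f) : Function.Surjective (toPt p f h) := by
  intro q
  obtain ⟨d, rfl⟩ := hf q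
  exact ⟨Quotient.mk _ d, rfl⟩

theorem le_orb {D P : Type} [Finite D] (p : Perm D) (f : D → P) (h : ∀ d, f (p d) = f d)
    (hf : Function.Surjective f) : Nat.card P ≤ orb p :=
  Nat.card_le_card_of_surjective (toPt p f h) (toPt_surj p f h hf)

theorem iff_of_le {D P : Type} [Finite D] (p : Perm D) (f : D → P) (h : ∀ d, f (p d) = f d)
    (hf : Function.Surjective f) (hle : orb p ≤ Nat.card P) (d e : D) :
    f d = f e ↔ p.SameCycle d e := by
  have hb := (toPt_surj p f h hf).bijective_of_nat_card_le hle
  constructor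
  · intro hde
    exact Quotient.exact (hb.1 (show toPt p f h (Quotient.mk _ d) = toPt p f h (Quotient.mk _ e)
      from hde))
  · intro hde
    exact congrArg (toPt p f h) (Quotient.sound (show (SameCycle.setoid p) d e from hde))

end U1aux

open A2aux U1aux in
theorem u1 (hA : HypStmt) : ExactStmt := by
  intro A hv
  have := hv.finV
  have := hv.finX
  have := hv.finF
  have := hv.finD
  have : Fintype A.D := Fintype.ofFinite _
  have hE := hv.euler
  have hfac : ∀ d, A.fac ((A.rot⁻¹ * A.rev) d) = A.fac d := hv.fac_nxt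
  have h1 : Nat.card A.V + Nat.card A.X ≤ orb A.rot := by
    rw [← Nat.card_sum]
    exact le_orb A.rot A.org hv.org_rot hv.org_surj
  have h2 : Nat.card A.F ≤ orb (A.rot⁻¹ * A.rev) := le_orb _ A.fac hfac hv.fac_surj
  have h3 : 2 * orb A.rev = Fintype.card A.D := orb_invol A.rev hv.rev_rev hv.rev_ne
  have hne : Nonempty A.D := by
    by_contra hD
    rw [not_nonempty_iff] at hD
    have h1 : IsEmpty (A.V ⊕ A.X) := ⟨fun p => by
      obtain ⟨d, -⟩ := hv.org_surj p
      exact hD.false d⟩
    have h2 : IsEmpty A.F := ⟨fun p => by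
      obtain ⟨d, -⟩ := hv.fac_surj p
      exact hD.false d⟩
    have h3 : IsEmpty A.V := ⟨fun v => h1.false (Sum.inl v)⟩
    have h4 : IsEmpty A.X := ⟨fun v => h1.false (Sum.inr v)⟩
    simp at hE
  have hc : comps A.rot⁻¹ A.rev = 1 := by
    unfold comps
    obtain ⟨d₀⟩ := hne
    rw [Nat.card_eq_one_iff_unique]
    refine ⟨⟨fun a b => ?_⟩, ⟨Quotient.mk _ d₀⟩⟩
    let S := SameCycle.setoid A.rot⁻¹ ⊔ SameCycle.setoid A.rev
    let s : Set A.D := {d | S d₀ d}
    have hs : ∀ d ∈ s, A.rot d ∈ s ∧ A.rev d ∈ s := by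
      intro d hd
      refine ⟨S.trans hd ?_, S.trans hd ?_⟩
      · exact (le_sup_left : SameCycle.setoid A.rot⁻¹ ≤ S)
          (show (A.rot⁻¹).SameCycle d (A.rot d) from
            sameCycle_inv.2 (sameCycle_apply_right.2 (SameCycle.refl _ _)))
      · exact (le_sup_right : SameCycle.setoid A.rev ≤ S)
          (show A.rev.SameCycle d (A.rev d) from sameCycle_apply_right.2 (SameCycle.refl _ _))
    have hu : s = Set.univ := hv.conn s ⟨d₀, S.refl d₀⟩ hs
    have key : ∀ d, S d₀ d := fun d => by
      have : d ∈ s := hu ▸ Set.mem_univ d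
      exact this
    induction a using Quotient.inductionOn with
    | h a =>
      induction b using Quotient.inductionOn with
      | h b => exact Quotient.sound (S.trans (S.symm (key a)) (key b))
  obtain ⟨hle, -⟩ := hA A.D A.rot⁻¹ A.rev
  rw [orb_inv, hc] at hle
  rw [Nat.card_eq_fintype_card (α := A.D)] at hE
  refine ⟨hv, ?_, ?_, ?_⟩
  · intro d e
    exact iff_of_le A.rot A.org hv.org_rot hv.org_surj (by rw [Nat.card_sum]; omega) d e
  · intro d e
    exact iff_of_le _ A.fac hfac hv.fac_surj (by omega) d e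
  · rw [Nat.card_eq_fintype_card (α := A.D)]
    omega

end Pool.Agent.H74.OneP
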